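import Pool.Agent.H386R3.CC.Hyper

set_option autoImplicit false

/-!
# The 1-skeleton of a combinatorial CAT(0) cube complex is a median graph
-/

namespace Q20.Cub

open Pool.Agent.H386R3.CC

universe u

variable {V : Type u} {C : CatS V}

theorem pth_reverse {P : List V} {x y : V} (h : Pth C P x y) : Pth C P.reverse y x := by
  refine ⟨?_, ?_, ?_⟩
  · rw [List.isChain_reverse]
    exact List.IsChain.imp (fun a b hab => C.adj_symm hab) h.1
  · rw [List.head?_reverse]; exact h.2.2
  · rw [List.getLast?_reverse]; exact h.2.1

theorem dd_le_symm (x y : V) : dd C y x ≤ dd C x y := by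
  obtain ⟨P, hP⟩ := exists_RP C x y
  have := dd_le (pth_reverse hP.1)
  rwa [List.length_reverse, hP.length_eq] at this

theorem dd_comm (x y : V) : dd C x y = dd C y x := le_antisymm (dd_le_symm _ _) (dd_le_symm _ _)

theorem dd_tri (x y z : V) : dd C x z + 1 ≤ dd C x y + dd C y z := by
  obtain ⟨P, hP⟩ := exists_RP C x y
  obtain ⟨Q, hQ⟩ := exists_RP C y z
  have l1 := hP.length_eq
  have l2 := hQ.length_eq
  obtain ⟨P', Q', rfl, rfl, h3⟩ := hP.1.trans hQ.1
  have h4 := dd_le h3
  simp only [List.length_append, List.length_cons, List.length_nil] at l1 l2 h4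
  omega

theorem exists_closer {v m : V} (h : dd C v m ≠ 1) :
    ∃ v', C.adj v v' ∧ dd C v' m + 1 = dd C v m := by
  obtain ⟨P, hP⟩ := exists_RP C v m
  have l1 := hP.length_eq
  obtain ⟨P', rfl⟩ := hP.exists_cons
  cases P' with
  | nil => simp at l1; omega
  | cons a P' =>
    refine ⟨a, (List.isChain_cons_cons.1 hP.1.1).1, ?_⟩
    have := hP.tail.length_eq
    simp only [List.length_cons] at l1 this
    omega

theorem gate : ∀ (n : ℕ) (v w m : V), dd C v m = n + 1 →
    (∀ z, C.adj m z → dd C z v < dd C m v → dd C z w < dd C m w → False) →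
    dd C v w + 1 = dd C v m + dd C m w := by
  intro n
  induction n using Nat.strong_induction_on with
  | _ n IH =>
    intro v w m hn hcl
    have key : ∀ k < n, ∀ u, dd C u m = k + 1 → dd C u v + k ≤ n + 1 →
        dd C u w + 1 = dd C u m + dd C m w := by
      intro k hk u hu huv
      refine IH k hk u w m hu ?_
      intro z hz h1 h2
      refine hcl z hz ?_ h2
      have t := dd_tri (C := C) z u v
      have e1 := dd_comm (C := C) m u
      have e2 := dd_comm (C := C) m v
      omega
    rcases Nat.eq_zero_or_pos n with h0 | hpos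
    · subst h0
      have : v = m := eq_of_dd (C := C) (by omega)
      subst this
      rw [dd_self]
      omega
    · obtain ⟨v', hv', hd'⟩ := exists_closer (C := C) (v := v) (m := m) (by omega)
      have hvv' : dd C v' v = 2 := by
        have := dd_adj (C := C) v hv'
        rw [dd_self] at this
        have := dd_pos C v' v
        omega
      have i1 := key (n - 1) (by omega) v' (by omega) (by omega)
      rcases dd_adj w hv' with h1 | h1
      · omega
      · exfalso
        rcases Nat.lt_or_ge 1 n with h2 | h2
        · obtain ⟨v2, hv2, hd2⟩ := exists_closer (C := C) (v := v') (m := m) (by omega)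
          have hv2v : dd C v2 v ≤ 3 := by
            have t := dd_tri (C := C) v2 v' v
            have := dd_adj (C := C) v' hv2
            rw [dd_self] at this
            have := dd_pos C v2 v'
            omega
          have i2 := key (n - 2) (by omega) v2 (by omega) (by omega)
          have hne : v ≠ v2 := by
            rintro rfl
            omega
          obtain ⟨u, hu, hdu⟩ := quad (C := C) (C.adj_symm hv') hv2 hne (by omega)
            (show dd C v2 w + 1 = dd C v' w by omega)
          have a1 : C.adj v u := C.sq_adj (C.rot hu)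
          have a2 : C.adj u v2 := C.sq_adj (SqS.rot2 hu)
          have b1 := dd_adj m a1
          have b2 := dd_adj m a2
          have huv : dd C u v = 2 := by
            have := dd_adj (C := C) v a1
            rw [dd_self] at this
            have := dd_pos C u v
            omega
          have i3 := key (n - 1) (by omega) u (by omega) (by omega)
          omega
        · have : v' = m := eq_of_dd (C := C) (by omega)
          subst this
          refine hcl v (C.adj_symm hv') ?_ (by omega)
          rw [dd_self]
          omega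

theorem exists_median (x y z : V) : ∃ m, dd C x m + dd C m y = dd C x y + 1 ∧
    dd C x m + dd C m z = dd C x z + 1 ∧ dd C y m + dd C m z = dd C y z + 1 := by
  classical
  let p : ℕ → Prop := fun n => ∃ m, dd C x m + dd C m y = dd C x y + 1 ∧
    dd C x m + dd C m z = dd C x z + 1 ∧ dd C x m = n
  have p1 : p 1 := ⟨x, by rw [dd_self]; omega, by rw [dd_self]; omega, dd_self C x⟩
  have bd : ∀ n, p n → n ≤ dd C x y + 1 := by
    rintro n ⟨m, h1, -, rfl⟩
    omega
  obtain ⟨m, h1, h2, h3⟩ := Nat.findGreatest_spec (P := p) (m := 1) (n := dd C x y + 1)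
    (by omega) p1
  refine ⟨m, h1, h2, ?_⟩
  have g := gate (C := C) (dd C y m - 1) y z m (by have := dd_pos C y m; omega) ?_
  · exact g.symm
  · intro u hu h4 h5
    have hxu := dd_adj x hu
    have e1 := dd_adj y hu
    have e2 := dd_adj z hu
    have t1 := dd_tri (C := C) x u y
    have t2 := dd_tri (C := C) x u z
    have c1 := dd_comm (C := C) x u
    have c2 := dd_comm (C := C) x m
    have hp : p (dd C x u) := ⟨u, by omega, by omega, rfl⟩
    have h6 := Nat.le_findGreatest (P := p) (bd _ hp) hp
    omega

theorem eq_of_not_sep {m m' : V} (h : ∀ k : Hy C, ¬ Sep C k m m') : m = m' := by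
  classical
  by_contra hne
  obtain ⟨P, hP⟩ := exists_RP C m m'
  obtain ⟨P', rfl⟩ := hP.exists_cons
  cases P' with
  | nil =>
    have := hP.1.2.2
    simp at this
    exact hne this
  | cons a P' =>
    have h1 := hP.cr_sep (hyp C m a)
    rw [if_neg (h _), cr_cons_cons, if_pos rfl] at h1
    omega

theorem not_sep_sep {x m y : V} (h : dd C x m + dd C m y = dd C x y + 1) (k : Hy C) :
    ¬ (Sep C k x m ∧ Sep C k m y) := by
  classical
  rintro ⟨h1, h2⟩
  obtain ⟨P, hP⟩ := exists_RP C x m
  obtain ⟨Q, hQ⟩ := exists_RP C m y
  have l1 := hP.length_eq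
  have l2 := hQ.length_eq
  obtain ⟨P', Q', rfl, rfl, h3⟩ := hP.1.trans hQ.1
  have h4 : RP C (P' ++ m :: Q') x y := by
    refine red_of_length h3 ?_
    simp only [List.length_append, List.length_cons, List.length_nil] at l1 l2 ⊢
    omega
  have h5 := cr_le_one k _ _ _ h4
  rw [cr_append, hP.cr_sep k, hQ.cr_sep k, if_pos h1, if_pos h2] at h5
  omega

theorem median_unique {x y z m m' : V}
    (h1 : dd C x m + dd C m y = dd C x y + 1) (h2 : dd C x m + dd C m z = dd C x z + 1)
    (h3 : dd C y m + dd C m z = dd C y z + 1)
    (h1' : dd C x m' + dd C m' y = dd C x y + 1) (h2' : dd C x m' + dd C m' z = dd C x z + 1)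
    (h3' : dd C y m' + dd C m' z = dd C y z + 1) : m = m' := by
  refine eq_of_not_sep (C := C) fun k hk => ?_
  have a1 := not_sep_sep h1 k
  have a2 := not_sep_sep h2 k
  have a3 := not_sep_sep h3 k
  have b1 := not_sep_sep h1' k
  have b2 := not_sep_sep h2' k
  have b3 := not_sep_sep h3' k
  have s : ∀ u v : V, Sep C k u v → Sep C k v u := fun u v => Sep.symm
  have flipx : ∀ u : V, ¬ Sep C k u m → Sep C k u m' := fun u hu =>
    (sep_trans k u m m').2 ⟨fun h => absurd h hu, fun h => absurd hk h⟩
  by_cases hx : Sep C k x m
  · have hy : ¬ Sep C k y m := fun h => a1 ⟨hx, s _ _ h⟩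
    have hz : ¬ Sep C k z m := fun h => a2 ⟨hx, s _ _ h⟩
    exact b3 ⟨flipx y hy, s _ _ (flipx z hz)⟩
  · by_cases hy : Sep C k y m
    · have hz : ¬ Sep C k z m := fun h => a3 ⟨hy, s _ _ h⟩
      exact b2 ⟨flipx x hx, s _ _ (flipx z hz)⟩
    · exact b1 ⟨flipx x hx, s _ _ (flipx y hy)⟩

variable (C) in
/-- The 1-skeleton as a simple graph. -/
def graph : SimpleGraph V where
  Adj := C.adj
  symm := ⟨fun _ _ h => C.adj_symm h⟩
  loopless := ⟨fun _ h => C.adj_ne h rfl⟩

theorem pth_of_walk {x y : V} (p : (graph C).Walk x y) : Pth C p.support x y := by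
  refine ⟨p.isChain_adj_support, ?_, ?_⟩
  · rw [List.head?_eq_some_head p.support_ne_nil, p.head_support]
  · rw [List.getLast?_eq_some_getLast p.support_ne_nil, p.getLast_support]

theorem exists_walk : ∀ (P : List V) (x y : V), Pth C P x y →
    ∃ p : (graph C).Walk x y, p.length + 1 = P.length
  | [], x, y, h => absurd rfl h.ne_nil
  | [a], x, y, h => by
    have h1 : a = x := by simpa using h.2.1
    have h2 : a = y := by simpa using h.2.2
    subst h1
    subst h2
    exact ⟨SimpleGraph.Walk.nil, by simp⟩
  | a :: b :: L, x, y, h => by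
    have h1 : a = x := by simpa using h.2.1
    subst h1
    obtain ⟨p, hp⟩ := exists_walk (b :: L) b y h.tail
    have hab : (graph C).Adj a b := (List.isChain_cons_cons.1 h.1).1
    exact ⟨SimpleGraph.Walk.cons hab p, by simp at hp ⊢; omega⟩

theorem graph_connected [Nonempty V] : (graph C).Connected := by
  refine ⟨fun x y => ?_⟩
  obtain ⟨P, hP⟩ := exists_RP C x y
  obtain ⟨p, -⟩ := exists_walk P x y hP.1
  exact ⟨p⟩

theorem dist_eq (x y : V) : (graph C).dist x y + 1 = dd C x y := by
  have : Nonempty V := ⟨x⟩
  obtain ⟨P, hP⟩ := exists_RP C x y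
  obtain ⟨p, hp⟩ := exists_walk P x y hP.1
  obtain ⟨q, hq⟩ := (graph_connected (C := C)).exists_walk_length_eq_dist x y
  have h1 := SimpleGraph.dist_le p
  have h2 := dd_le (pth_of_walk q)
  rw [SimpleGraph.Walk.length_support] at h2
  have h3 := hP.length_eq
  omega

/-- The 1-skeleton is a median graph. -/
theorem median (x y z : V) : ∃! m : V,
    (graph C).dist x m + (graph C).dist m y = (graph C).dist x y ∧
    (graph C).dist y m + (graph C).dist m z = (graph C).dist y z ∧
    (graph C).dist x m + (graph C).dist m z = (graph C).dist x z := by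
  have e := dist_eq (C := C)
  obtain ⟨m, h1, h2, h3⟩ := exists_median (C := C) x y z
  refine ⟨m, ?_, ?_⟩
  · have := e x m
    have := e m y
    have := e x y
    have := e y m
    have := e m z
    have := e y z
    have := e x z
    refine ⟨by omega, by omega, by omega⟩
  · rintro m' ⟨g1, g2, g3⟩
    have := e x m'
    have := e m' y
    have := e x y
    have := e y m'
    have := e m' z
    have := e y z
    have := e x z
    exact (median_unique (C := C) h1 h2 h3 (by omega) (by omega) (by omega)).symm

end Q20.Cub
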