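import Pool.Agent.H386R3.CC.Cover
import Pool.Agent.Q20.Cub.Median

set_option autoImplicit false

/-!
# Cayley complexes with square relations and flag links
-/

namespace Q20.Cub

open Pool.Agent.H386R3.CC

/-- A group `G` with letters `L` (generators and their inverses) and square relations
`a * b = e * c` recorded by `comp a e = some (b, c)`, with flag links of dimension at most two. -/
structure SqData (L G : Type) [Group G] where
  inv : L → L
  comp : L → L → Option (L × L)
  ev : L → G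
  inv_inv : ∀ l, inv (inv l) = l
  ev_inv : ∀ l, ev (inv l) = (ev l)⁻¹
  ev_inj : Function.Injective ev
  ev_ne : ∀ l, ev l ≠ 1
  rel : ∀ a e b c, comp a e = some (b, c) → ev a * ev b = ev e * ev c
  rot : ∀ a e b c, comp a e = some (b, c) → comp b (inv a) = some (inv c, e)
  rev : ∀ a e b c, comp a e = some (b, c) → comp c (inv e) = some (inv b, a)
  red : ∀ a e b c, comp a e = some (b, c) → b ≠ inv a
  cube : ∀ a b c u v u' v' u'' v'', comp a b = some (u, v) → comp b c = some (u', v') →
    comp a c = some (u'', v'') →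
    ∃ e f g, comp u u'' = some (e, f) ∧ comp v u' = some (e, g) ∧ comp v' v'' = some (g, f)
  no4 : ∀ a b c d, (comp a b).isSome → (comp a c).isSome → (comp a d).isSome →
    (comp b c).isSome → (comp b d).isSome → (comp c d).isSome → False
  gen : Subgroup.closure (Set.range ev) = ⊤
  univ : ∀ (H : Type) [Group H] (f : L → H), (∀ l, f (inv l) = (f l)⁻¹) →
    (∀ a e b c, comp a e = some (b, c) → f a * f b = f e * f c) →
    ∃ F : G →* H, ∀ l, F (ev l) = f l

namespace SqData

variable {L G : Type} [Group G] (D : SqData L G)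

/-- The squares of the Cayley complex. -/
def Sq (x y z w : G) : Prop := ∃ a e b c, D.comp a e = some (b, c) ∧ y = x * D.ev a ∧
  w = x * D.ev e ∧ z = y * D.ev b ∧ z = w * D.ev c

/-- The square system of the Cayley complex. -/
def sqs : SqS G where
  sq := D.Sq
  rot := by
    rintro x y z w ⟨a, e, b, c, h, rfl, rfl, rfl, h2⟩
    refine ⟨b, D.inv a, D.inv c, e, D.rot _ _ _ _ h, rfl, ?_, ?_, rfl⟩
    · rw [D.ev_inv]; group
    · rw [h2, D.ev_inv]; group
  rev := by
    rintro x y z w ⟨a, e, b, c, h, rfl, rfl, rfl, h2⟩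
    refine ⟨c, D.inv e, D.inv b, a, D.rev _ _ _ _ h, h2, ?_, ?_, rfl⟩
    · rw [D.ev_inv]; group
    · rw [D.ev_inv]; group
  ne := by
    rintro x y z w ⟨a, e, b, c, h, rfl, rfl, rfl, h2⟩ he
    refine D.red _ _ _ _ h (D.ev_inj ?_)
    rw [D.ev_inv]
    have : x * (D.ev a * D.ev b) = x * 1 := by rw [mul_one, ← mul_assoc]; exact he.symm
    have := mul_left_cancel this
    exact eq_inv_of_mul_eq_one_right this
  uniq := by
    rintro x y z z' w ⟨a, e, b, c, h, h1, h2, h3, h4⟩ ⟨a', e', b', c', h', h1', h2', h3', h4'⟩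
    obtain rfl : a = a' := D.ev_inj (mul_left_cancel (h1.symm.trans h1'))
    obtain rfl : e = e' := D.ev_inj (mul_left_cancel (h2.symm.trans h2'))
    rw [h] at h'
    obtain ⟨rfl, rfl⟩ : b = b' ∧ c = c' := by simpa using h'
    rw [h3, h3']
  cube := by
    rintro x α β γ p q r ⟨a, b, u, v, h, h1, h2, h3, h4⟩ ⟨b', c, u', v', h', h1', h2', h3', h4'⟩
      ⟨a'', c'', u'', v'', h'', h1'', h2'', h3'', h4''⟩
    obtain rfl : a = a'' := D.ev_inj (mul_left_cancel (h1.symm.trans h1''))
    obtain rfl : b = b' := D.ev_inj (mul_left_cancel (h2.symm.trans h1'))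
    obtain rfl : c = c'' := D.ev_inj (mul_left_cancel (h2'.symm.trans h2''))
    obtain ⟨e, f, g, g1, g2, g3⟩ := D.cube _ _ _ _ _ _ _ _ _ h h' h''
    have r1 := D.rel _ _ _ _ g1
    have r2 := D.rel _ _ _ _ g2
    have e1 : p * D.ev e = r * D.ev f := by
      rw [h3, h3'', mul_assoc, mul_assoc, r1]
    have e2 : p * D.ev e = q * D.ev g := by
      rw [h4, h3', mul_assoc, mul_assoc, r2]
    refine ⟨p * D.ev e, ⟨u, u'', e, f, g1, h3, h3'', rfl, e1⟩, ⟨v, u', e, g, g2, h4, h3', rfl, e2⟩,
      ⟨v', v'', g, f, g3, h4', h4'', e2, e1⟩⟩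

/-- Adjacency in the Cayley graph. -/
def Adj (x y : G) : Prop := ∃ l, y = x * D.ev l

theorem adj_symm {x y : G} (h : D.Adj x y) : D.Adj y x := by
  obtain ⟨l, rfl⟩ := h
  exact ⟨D.inv l, by rw [D.ev_inv]; group⟩

/-! ### The action on the universal cover -/

/-- The move along the letter `l`. -/
noncomputable def mv (l : L) (c : Om D.sqs) : Om D.sqs := c.step (c.fin * D.ev l)

theorem fin_mv (l : L) (c : Om D.sqs) : (D.mv l c).fin = c.fin * D.ev l := fin_step _ _

theorem mv_inv_mv (l : L) (c : Om D.sqs) : D.mv (D.inv l) (D.mv l c) = c := by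
  have h := step_step (c.fin * D.ev l) c
  have e : (D.mv l c).fin * D.ev (D.inv l) = c.fin := by
    rw [fin_mv, D.ev_inv]; group
  unfold mv at e ⊢
  rw [e]
  exact h

theorem mv_mv_inv (l : L) (c : Om D.sqs) : D.mv l (D.mv (D.inv l) c) = c := by
  have := D.mv_inv_mv (D.inv l) c
  rwa [D.inv_inv] at this

/-- The permutation of the universal cover given by a letter. -/
noncomputable def mvE (l : L) : Equiv.Perm (Om D.sqs) where
  toFun := D.mv l
  invFun := D.mv (D.inv l)
  left_inv := D.mv_inv_mv l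
  right_inv := D.mv_mv_inv l

theorem mv_rel {a e b c : L} (h : D.comp a e = some (b, c)) (x : Om D.sqs) :
    D.mv b (D.mv a x) = D.mv c (D.mv e x) := by
  have hs : D.sqs.sq x.fin (x.fin * D.ev a) (x.fin * D.ev a * D.ev b) (x.fin * D.ev e) :=
    ⟨a, e, b, c, h, rfl, rfl, rfl, by rw [mul_assoc, mul_assoc, D.rel _ _ _ _ h]⟩
  have h1 := step_square x hs
  have e1 : (D.mv a x).fin * D.ev b = x.fin * D.ev a * D.ev b := by rw [fin_mv]
  have e2 : (D.mv e x).fin * D.ev c = x.fin * D.ev a * D.ev b := by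
    rw [fin_mv, mul_assoc, mul_assoc, D.rel _ _ _ _ h]
  unfold mv at e1 e2 ⊢
  rw [e1, e2]
  exact h1

theorem exists_action : ∃ F : G →* (Equiv.Perm (Om D.sqs))ᵐᵒᵖ, ∀ l,
    F (D.ev l) = MulOpposite.op (D.mvE l) := by
  refine D.univ _ (fun l => MulOpposite.op (D.mvE l)) ?_ ?_
  · intro l
    rw [← MulOpposite.op_inv]
    congr 1
    ext x
    show D.mv (D.inv l) x = D.mv (D.inv l) x
    rfl
  · intro a e b c h
    rw [← MulOpposite.op_mul, ← MulOpposite.op_mul]
    congr 1
    ext x
    show D.mv b (D.mv a x) = D.mv c (D.mv e x)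
    exact D.mv_rel h x

/-- The action of `G` on the universal cover. -/
noncomputable def act : G →* (Equiv.Perm (Om D.sqs))ᵐᵒᵖ := D.exists_action.choose

theorem act_ev (l : L) (x : Om D.sqs) : (D.act (D.ev l)).unop x = D.mv l x := by
  unfold act
  rw [D.exists_action.choose_spec l]
  rfl

theorem red_single (x : G) : Red D.sqs [x] := by
  intro Q hQ hb
  have h := hQ.length
  obtain ⟨R, hR⟩ := hb.del
  have h2 := hR.length
  simp at h
  omega

/-- Lifting a path to the universal cover gives its class. -/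
theorem lift_path (v : G) : ∀ (P : List G) (hP : Red D.sqs P ∧ P ≠ []) (x : G),
    List.IsChain D.Adj P → P.head? = some x → P.getLast? = some v →
    Om.mk P hP = (D.act (v⁻¹ * x)).unop (Om.mk [v] ⟨D.red_single v, by simp⟩)
  | [], hP, _, _, _, _ => absurd rfl hP.2
  | [a], hP, x, _, h1, h2 => by
    have e1 : a = x := by simpa using h1
    have e2 : a = v := by simpa using h2
    subst e1
    subst e2
    simp
  | a :: b :: P, hP, x, hc, h1, h2 => by
    have e1 : a = x := by simpa using h1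
    subst e1
    rw [List.isChain_cons_cons] at hc
    have ih := lift_path v (b :: P) ⟨hP.1.tail, by simp⟩ b hc.2 rfl
      (by rwa [List.getLast?_cons_cons] at h2)
    obtain ⟨l, hl⟩ := D.adj_symm hc.1
    have e : v⁻¹ * a = v⁻¹ * b * D.ev l := by rw [hl]; group
    rw [e, map_mul]
    have e3 : (D.act (v⁻¹ * b) * D.act (D.ev l)).unop (Om.mk [v] ⟨D.red_single v, by simp⟩) =
        (D.act (D.ev l)).unop ((D.act (v⁻¹ * b)).unop (Om.mk [v] ⟨D.red_single v, by simp⟩)) :=
      rfl
    rw [e3, ← ih, act_ev]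
    unfold mv
    rw [Om.fin_mk, ← hl, step_asc _ hP.1]

theorem sc (P Q : List G) (hP : List.IsChain D.Adj P) (hQ : List.IsChain D.Adj Q) (hne : P ≠ [])
    (hh : P.head? = Q.head?) (hl : P.getLast? = Q.getLast?) (rP : Red D.sqs P)
    (rQ : Red D.sqs Q) : Eqv D.sqs P Q := by
  have hneQ : Q ≠ [] := by
    rintro rfl
    simp at hh
    exact hne hh
  have h1 := D.lift_path (P.getLast hne) P ⟨rP, hne⟩ (P.head hne) hP
    (List.head?_eq_some_head hne) (List.getLast?_eq_some_getLast hne)
  have h2 := D.lift_path (P.getLast hne) Q ⟨rQ, hneQ⟩ (P.head hne) hQ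
    (by rw [← hh]; exact List.head?_eq_some_head hne)
    (by rw [← hl]; exact List.getLast?_eq_some_getLast hne)
  exact Om.exact (h1.trans h2.symm)

theorem conn_one (x : G) : ∃ P : List G, List.IsChain D.Adj P ∧ P.head? = some x ∧
    P.getLast? = some 1 := by
  have hx : x ∈ Submonoid.closure (Set.range D.ev) := by
    have hs : (Set.range D.ev)⁻¹ = Set.range D.ev := by
      ext g
      constructor
      · rintro ⟨l, hl⟩
        exact ⟨D.inv l, by rw [D.ev_inv, hl, _root_.inv_inv]⟩
      · rintro ⟨l, hl⟩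
        exact ⟨D.inv l, by rw [D.ev_inv, hl]⟩
    have h4 : x ∈ (Subgroup.closure (Set.range D.ev)).toSubmonoid := by rw [D.gen]; trivial
    rw [Subgroup.closure_toSubmonoid, hs, Set.union_self] at h4
    exact h4
  have key : ∀ y ∈ Submonoid.closure (Set.range D.ev), ∀ P : List G, ∀ z : G,
      List.IsChain D.Adj P → P.head? = some z → P.getLast? = some 1 →
      ∃ P : List G, List.IsChain D.Adj P ∧ P.head? = some (z * y) ∧ P.getLast? = some 1 := by
    intro y hy
    induction hy using Submonoid.closure_induction with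
    | mem y hy =>
      obtain ⟨l, rfl⟩ := hy
      intro P z h1 h2 h3
      cases P with
      | nil => simp at h2
      | cons a P =>
        have e : a = z := by simpa using h2
        subst e
        refine ⟨a * D.ev l :: a :: P, List.isChain_cons_cons.2 ⟨D.adj_symm ⟨l, rfl⟩, h1⟩, rfl, ?_⟩
        rw [List.getLast?_cons_cons]; exact h3
    | one =>
      intro P z h1 h2 h3
      exact ⟨P, h1, by rw [mul_one]; exact h2, h3⟩
    | mul y y' _ _ ih ih' =>
      intro P z h1 h2 h3
      obtain ⟨P', a1, a2, a3⟩ := ih P z h1 h2 h3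
      obtain ⟨P'', b1, b2, b3⟩ := ih' P' _ a1 a2 a3
      exact ⟨P'', b1, by rw [b2, mul_assoc], b3⟩
  obtain ⟨P, h1, h2, h3⟩ := key x hx [1] 1 (List.isChain_singleton _) rfl rfl
  exact ⟨P, h1, by rw [h2, one_mul], h3⟩

theorem chain_map (g : G) {P : List G} (h : List.IsChain D.Adj P) :
    List.IsChain D.Adj (P.map (fun x => g * x)) := by
  rw [List.isChain_map]
  refine List.IsChain.imp ?_ h
  rintro a b ⟨l, rfl⟩
  exact ⟨l, by rw [mul_assoc]⟩

/-- The combinatorial CAT(0) cube complex. -/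
def cat : CatS G where
  toSqS := D.sqs
  adj := D.Adj
  adj_symm := D.adj_symm
  adj_ne := by
    rintro x y ⟨l, rfl⟩ h
    exact D.ev_ne l (by simpa using h)
  sq_adj := by
    rintro x y z w ⟨a, e, b, c, h, h1, -⟩
    exact ⟨a, h1⟩
  conn := by
    intro x y
    obtain ⟨P, h1, h2, h3⟩ := D.conn_one (y⁻¹ * x)
    refine ⟨P.map (fun z => y * z), D.chain_map y h1, ?_, ?_⟩
    · rw [List.head?_map, h2]; simp
    · rw [List.getLast?_map, h3]; simp
  sc := D.sc
  no4 := by
    rintro x α β γ δ ⟨p1, a1, b1, _, _, c1, e1, f1, -⟩ ⟨p2, a2, b2, _, _, c2, e2, f2, -⟩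
      ⟨p3, a3, b3, _, _, c3, e3, f3, -⟩ ⟨p4, a4, b4, _, _, c4, e4, f4, -⟩
      ⟨p5, a5, b5, _, _, c5, e5, f5, -⟩ ⟨p6, a6, b6, _, _, c6, e6, f6, -⟩
    have i : ∀ {l l' : L} {g : G}, g = x * D.ev l → g = x * D.ev l' → l = l' :=
      fun h h' => D.ev_inj (mul_left_cancel (h.symm.trans h'))
    obtain rfl := i e1 e2
    obtain rfl := i e1 e3
    obtain rfl := i f1 e4
    obtain rfl := i f1 e5
    obtain rfl := i f2 f4
    obtain rfl := i f2 e6
    obtain rfl := i f3 f5
    obtain rfl := i f3 f6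
    exact D.no4 a1 b1 b2 b3 (by simp [c1]) (by simp [c2]) (by simp [c3]) (by simp [c4])
      (by simp [c5]) (by simp [c6])

theorem main [Finite L] : (graph D.cat).Connected ∧
    (∀ v : G, ((graph D.cat).neighborSet v).Finite) ∧
    (∀ x y z : G, ∃! m : G,
      (graph D.cat).dist x m + (graph D.cat).dist m y = (graph D.cat).dist x y ∧
      (graph D.cat).dist y m + (graph D.cat).dist m z = (graph D.cat).dist y z ∧
      (graph D.cat).dist x m + (graph D.cat).dist m z = (graph D.cat).dist x z) ∧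
    (∀ g u v : G, (graph D.cat).Adj u v → (graph D.cat).Adj (g * u) (g * v)) := by
  refine ⟨graph_connected, ?_, fun x y z => median x y z, ?_⟩
  · intro v
    refine (Set.finite_range (fun l => v * D.ev l)).subset ?_
    rintro w ⟨l, hl⟩
    exact ⟨l, hl.symm⟩
  · rintro g u v ⟨l, rfl⟩
    exact ⟨l, by rw [mul_assoc]⟩

end SqData

end Q20.Cub
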