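import Pool.Agent.Q20.Cub.Cayley

set_option autoImplicit false

/-!
# The mapping torus of `a ↦ a, b ↦ ab, c ↦ bcb`
-/

namespace Q20.Cub.FbC

open Pool.Agent.H386R3.CC Q20.Cub

/-- Letters: `0,...,6` are `x, y, b, d, d1, d2, d3`; the flag `true` means the generator, `false`
its inverse. -/
abbrev L := Fin 7 × Bool

def inv (l : L) : L := (l.1, !l.2)

theorem inv_inv : ∀ l, inv (inv l) = l := by decide

/-- The eight square relations `p q = r s`, written `(p, r, q, s)`. -/
def base : List (L × L × L × L) :=
  [((0, true), (1, true), (1, true), (0, true)),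
   ((2, true), (1, true), (0, true), (2, true)),
   ((2, false), (3, true), (4, true), (2, true)),
   ((1, true), (4, true), (3, true), (0, true)),
   ((0, true), (3, true), (5, true), (1, true)),
   ((2, false), (5, true), (3, true), (2, true)),
   ((0, true), (4, true), (6, true), (1, true)),
   ((1, true), (6, true), (5, true), (0, true))]

def rotQ (q : L × L × L × L) : L × L × L × L := (q.2.2.1, inv q.1, inv q.2.2.2, q.2.1)
def revQ (q : L × L × L × L) : L × L × L × L := (q.2.2.2, inv q.2.1, inv q.2.2.1, q.1)

def orbit (q : L × L × L × L) : List (L × L × L × L) :=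
  [q, rotQ q, rotQ (rotQ q), rotQ (rotQ (rotQ q)),
   revQ q, revQ (rotQ q), revQ (rotQ (rotQ q)), revQ (rotQ (rotQ (rotQ q)))]

def tbl : List (L × L × L × L) := base.flatMap orbit

def comp (a e : L) : Option (L × L) :=
  (tbl.find? fun q => q.1 == a && q.2.1 == e).map fun q => q.2.2

theorem comp_mem {a e b c : L} (h : comp a e = some (b, c)) : (a, e, b, c) ∈ tbl := by
  unfold comp at h
  rw [Option.map_eq_some_iff] at h
  obtain ⟨q, h1, h2⟩ := h
  have h3 := List.mem_of_find?_eq_some h1
  have h4 := List.find?_some h1
  obtain ⟨q1, q2, q3, q4⟩ := q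
  simp only [Bool.and_eq_true, beq_iff_eq] at h4
  obtain ⟨rfl, rfl⟩ := h4
  have h5 : (q3, q4) = (b, c) := h2
  rw [← h5]
  exact h3

theorem tbl_ok : ∀ q ∈ tbl, comp q.1 q.2.1 = some q.2.2 ∧
    comp (rotQ q).1 (rotQ q).2.1 = some (rotQ q).2.2 ∧
    comp (revQ q).1 (revQ q).2.1 = some (revQ q).2.2 ∧ q.2.2.1 ≠ inv q.1 := by decide +kernel

def cubeCheck (a b c : L) : Bool :=
  match comp a b with
  | none => true
  | some (u, v) =>
    match comp b c with
    | none => true
    | some (u', v') =>
      match comp a c with
      | none => true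
      | some (u'', v'') =>
        match comp u u'', comp v u', comp v' v'' with
        | some (e, f), some (e', g), some (g', f') => e == e' && f == f' && g == g'
        | _, _, _ => false

theorem cube_ok : ∀ a b c : L, cubeCheck a b c = true := by decide +kernel

theorem cube {a b c u v u' v' u'' v'' : L} (h1 : comp a b = some (u, v))
    (h2 : comp b c = some (u', v')) (h3 : comp a c = some (u'', v'')) :
    ∃ e f g, comp u u'' = some (e, f) ∧ comp v u' = some (e, g) ∧ comp v' v'' = some (g, f) := by
  have h := cube_ok a b c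
  unfold cubeCheck at h
  simp only [h1, h2, h3] at h
  split at h
  · rename_i e f e' g g' f' k1 k2 k3
    simp only [Bool.and_eq_true, beq_iff_eq] at h
    obtain ⟨⟨rfl, rfl⟩, rfl⟩ := h
    exact ⟨_, _, _, k1, k2, k3⟩
  · exact absurd h (by simp)

def s4 (a b c d : L) : Bool :=
  (comp a b).isSome && ((comp a c).isSome && ((comp b c).isSome && ((comp a d).isSome &&
    ((comp b d).isSome && (comp c d).isSome))))

theorem s4_ok : ∀ a b c d : L, s4 a b c d = false := by decide +kernel

theorem no4 (a b c d : L) (h1 : (comp a b).isSome) (h2 : (comp a c).isSome)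
    (h3 : (comp a d).isSome) (h4 : (comp b c).isSome) (h5 : (comp b d).isSome)
    (h6 : (comp c d).isSome) : False := by
  have h := s4_ok a b c d
  unfold s4 at h
  rw [h1, h2, h3, h4, h5, h6] at h
  simp at h

end Q20.Cub.FbC
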