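import Pool.Agent.Q20.Cub.FbC

set_option autoImplicit false

/-!
# The mapping torus of `a ↦ a, b ↦ ab, c ↦ bcb`: square data
-/

namespace Q20.Cub.FbC

open Pool.Agent.H386R3.CC Q20.Cub

/-- Words in the letters. -/
def evW {H : Type} [Group H] (X Y B D : H) (l : L) : H :=
  let g : H := (![X, Y, B, D, B * D * B, X⁻¹ * D * Y, X⁻¹ * (B * D * B) * Y] : Fin 7 → H) l.1
  if l.2 then g else g⁻¹

theorem evW_inv {H : Type} [Group H] (X Y B D : H) (l : L) :
    evW X Y B D (inv l) = (evW X Y B D l)⁻¹ := by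
  obtain ⟨i, s⟩ := l
  cases s <;> simp [evW, inv]

theorem map_evW {H K : Type} [Group H] [Group K] (F : H →* K) (X Y B D : H) (l : L) :
    F (evW X Y B D l) = evW (F X) (F Y) (F B) (F D) l := by
  obtain ⟨i, s⟩ := l
  fin_cases i <;> cases s <;> simp [evW]

theorem orbit_rel {H : Type} [Group H] (f : L → H) (hf : ∀ l, f (inv l) = (f l)⁻¹)
    {q q' : L × L × L × L} (hq : q' ∈ orbit q) (h : f q.1 * f q.2.2.1 = f q.2.1 * f q.2.2.2) :
    f q'.1 * f q'.2.2.1 = f q'.2.1 * f q'.2.2.2 := by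
  have hr : ∀ q : L × L × L × L, f q.1 * f q.2.2.1 = f q.2.1 * f q.2.2.2 →
      f (rotQ q).1 * f (rotQ q).2.2.1 = f (rotQ q).2.1 * f (rotQ q).2.2.2 := by
    rintro ⟨a, e, b, c⟩ h
    simp only [rotQ, hf] at h ⊢
    rw [mul_inv_eq_iff_eq_mul, mul_assoc, ← h]
    group
  have hv : ∀ q : L × L × L × L, f q.1 * f q.2.2.1 = f q.2.1 * f q.2.2.2 →
      f (revQ q).1 * f (revQ q).2.2.1 = f (revQ q).2.1 * f (revQ q).2.2.2 := by
    rintro ⟨a, e, b, c⟩ h
    simp only [revQ, hf] at h ⊢
    rw [mul_inv_eq_iff_eq_mul, mul_assoc, h]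
    group
  simp only [orbit, List.mem_cons, List.not_mem_nil, or_false] at hq
  rcases hq with rfl | rfl | rfl | rfl | rfl | rfl | rfl | rfl
  · exact h
  · exact hr _ h
  · exact hr _ (hr _ h)
  · exact hr _ (hr _ (hr _ h))
  · exact hv _ h
  · exact hv _ (hr _ h)
  · exact hv _ (hr _ (hr _ h))
  · exact hv _ (hr _ (hr _ (hr _ h)))

theorem evW_rel {H : Type} [Group H] (X Y B D : H) (h1 : X * Y = Y * X) (h2 : B * X = Y * B)
    (h3 : B⁻¹ * Y * D = D * B * X) {a e b c : L} (h : comp a e = some (b, c)) :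
    evW X Y B D a * evW X Y B D b = evW X Y B D e * evW X Y B D c := by
  have hm := comp_mem h
  unfold tbl at hm
  rw [List.mem_flatMap] at hm
  obtain ⟨q, hq, hm⟩ := hm
  refine orbit_rel (evW X Y B D) (evW_inv X Y B D) hm ?_
  have h4 : B * D * B * X = Y * D := by
    have : B * (B⁻¹ * Y * D) = B * (D * B * X) := by rw [h3]
    have e1 : B * (B⁻¹ * Y * D) = Y * D := by group
    have e2 : B * (D * B * X) = B * D * B * X := by group
    rw [e1, e2] at this
    exact this.symm
  simp only [base, List.mem_cons, List.not_mem_nil, or_false] at hq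
  rcases hq with rfl | rfl | rfl | rfl | rfl | rfl | rfl | rfl
  · simpa [evW] using h1
  · simpa [evW] using h2
  · simp [evW]; group
  · simp [evW]; exact h4.symm
  · simp [evW]; group
  · -- B⁻¹ D = (X⁻¹ D Y) B
    simp only [evW]
    simp
    have : X⁻¹ * D * Y * B = X⁻¹ * (D * (Y * B)) := by group
    rw [this, ← h2, ← mul_assoc D B X, ← h3]
    have e1 : B⁻¹ * Y = X * B⁻¹ := by
      rw [inv_mul_eq_iff_eq_mul, ← mul_assoc, h2]
      group
    rw [e1]
    group
  · simp [evW]; group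
  · -- Y (X⁻¹ D Y) = (X⁻¹ (B D B) Y) X
    simp only [evW]
    simp
    have e1 : X⁻¹ * (B * D * B) * Y * X = X⁻¹ * (B * D * B * X) * Y := by
      have : X⁻¹ * (B * D * B) * Y * X = X⁻¹ * (B * D * B) * (Y * X) := by group
      rw [this, ← h1]
      group
    rw [e1, h4]
    have e2 : Y * X⁻¹ = X⁻¹ * Y := by
      rw [mul_inv_eq_iff_eq_mul, mul_assoc, ← h1]
      group
    calc Y * (X⁻¹ * D * Y) = (Y * X⁻¹) * D * Y := by group
      _ = X⁻¹ * (Y * D) * Y := by rw [e2]; group

/-! ### The group -/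

section grp

variable (φ : MulAut (FreeGroup (Fin 3)))

/-- The mapping torus. -/
abbrev MT : Type := FreeGroup (Fin 3) ⋊[zpowersHom (MulAut (FreeGroup (Fin 3))) φ] Multiplicative ℤ

/-- The stable letter. -/
def tt : MT φ := SemidirectProduct.inr (Multiplicative.ofAdd 1)

/-- Elements of the free group. -/
def io (w : FreeGroup (Fin 3)) : MT φ := SemidirectProduct.inl w

theorem conj_tt (w : FreeGroup (Fin 3)) : tt φ * io φ w * (tt φ)⁻¹ = io φ (φ w) := by
  have h := SemidirectProduct.inl_aut (φ := zpowersHom (MulAut (FreeGroup (Fin 3))) φ)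
    (Multiplicative.ofAdd 1) w
  rw [map_inv] at h
  unfold tt io
  rw [← h]
  simp

variable {φ}

theorem exists_lift {H : Type} [Group H] (f : FreeGroup (Fin 3) →* H) (τ : H)
    (h : ∀ i, f (φ (FreeGroup.of i)) = τ * f (FreeGroup.of i) * τ⁻¹) :
    ∃ F : MT φ →* H, (∀ w, F (io φ w) = f w) ∧ F (tt φ) = τ := by
  have h1 : ∀ w, f (φ w) = τ * f w * τ⁻¹ := by
    intro w
    have : f.comp φ.toMonoidHom = (MulAut.conj τ).toMonoidHom.comp f := by
      ext i
      simpa using h i
    exact DFunLike.congr_fun this w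
  have h2 : ∀ w, f (φ⁻¹ w) = τ⁻¹ * f w * τ := by
    intro w
    have := h1 (φ⁻¹ w)
    rw [MulAut.apply_inv_self] at this
    rw [this]
    group
  have h3 : ∀ (n : ℤ) (w : FreeGroup (Fin 3)), f ((φ ^ n) w) = τ ^ n * f w * (τ ^ n)⁻¹ := by
    intro n
    induction n using Int.induction_on with
    | zero => intro w; simp
    | succ n ih =>
      intro w
      rw [zpow_add_one, MulAut.mul_apply, ih, h1, zpow_add_one]
      group
    | pred n ih =>
      intro w
      rw [zpow_sub_one, MulAut.mul_apply, ih, h2, zpow_sub_one]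
      group
  refine ⟨SemidirectProduct.lift f (zpowersHom H τ) ?_, ?_, ?_⟩
  · intro g
    ext i
    have := h3 (Multiplicative.toAdd g) (FreeGroup.of i)
    simp only [MonoidHom.comp_apply, MulEquiv.coe_toMonoidHom, zpowersHom_apply, MulAut.conj_apply]
    exact this
  · intro w
    simp [io]
  · simp [tt]

/-- The four basic elements `x = t`, `y = a⁻¹ t`, `b`, `d = t c`. -/
def bx (φ : MulAut (FreeGroup (Fin 3))) : MT φ := tt φ
def by' (φ : MulAut (FreeGroup (Fin 3))) : MT φ := (io φ (FreeGroup.of 0))⁻¹ * tt φ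
def bb (φ : MulAut (FreeGroup (Fin 3))) : MT φ := io φ (FreeGroup.of 1)
def bd (φ : MulAut (FreeGroup (Fin 3))) : MT φ := tt φ * io φ (FreeGroup.of 2)

variable (h0 : φ (FreeGroup.of 0) = FreeGroup.of 0)
  (h1 : φ (FreeGroup.of 1) = FreeGroup.of 0 * FreeGroup.of 1)
  (h2 : φ (FreeGroup.of 2) = FreeGroup.of 1 * FreeGroup.of 2 * FreeGroup.of 1)

include h0 in
theorem r0 : tt φ * io φ (FreeGroup.of 0) = io φ (FreeGroup.of 0) * tt φ := by
  have h := conj_tt φ (FreeGroup.of 0)
  rw [h0, mul_inv_eq_iff_eq_mul] at h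
  exact h

include h1 in
theorem r1 : tt φ * io φ (FreeGroup.of 1) =
    io φ (FreeGroup.of 0) * io φ (FreeGroup.of 1) * tt φ := by
  have h := conj_tt φ (FreeGroup.of 1)
  rw [h1, mul_inv_eq_iff_eq_mul] at h
  rw [h]
  simp [io]

include h2 in
theorem r2 : tt φ * io φ (FreeGroup.of 2) =
    io φ (FreeGroup.of 1) * io φ (FreeGroup.of 2) * io φ (FreeGroup.of 1) * tt φ := by
  have h := conj_tt φ (FreeGroup.of 2)
  rw [h2, mul_inv_eq_iff_eq_mul] at h
  rw [h]
  simp [io]

include h0 in
theorem q1 : bx φ * by' φ = by' φ * bx φ := by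
  unfold bx by'
  have h := r0 h0
  rw [← mul_assoc]
  congr 1
  rw [mul_inv_eq_iff_eq_mul, mul_assoc, h]
  group

include h1 in
theorem q2 : bb φ * bx φ = by' φ * bb φ := by
  unfold bb bx by'
  rw [mul_assoc, r1 h1]
  group

include h1 h2 in
theorem q3 : (bb φ)⁻¹ * by' φ * bd φ = bd φ * bb φ * bx φ := by
  have e1 := r1 h1
  have e2 := r2 h2
  unfold bb bx by' bd
  generalize tt φ = t at *
  generalize io φ (FreeGroup.of 0) = a at *
  generalize io φ (FreeGroup.of 1) = b at *
  generalize io φ (FreeGroup.of 2) = c at *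
  -- t b = a b t, t c = b c b t
  have e3 : b⁻¹ * (a⁻¹ * t) = t * b⁻¹ := by
    rw [inv_mul_eq_iff_eq_mul, inv_mul_eq_iff_eq_mul, ← mul_assoc, ← mul_assoc,
      eq_mul_inv_iff_mul_eq, e1]
  rw [e3]
  have e4 : t * c * b * t = t * (c * b * t) := by group
  rw [e4]
  have e5 : c * b * t = b⁻¹ * (t * c) := by rw [e2]; group
  rw [e5]
  group

/-- The letters as elements of the group. -/
def ev (φ : MulAut (FreeGroup (Fin 3))) : L → MT φ := evW (bx φ) (by' φ) (bb φ) (bd φ)

include h0 h1 h2 in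
theorem exists_hom {H : Type} [Group H] (X Y B D : H) (k1 : X * Y = Y * X) (k2 : B * X = Y * B)
    (k3 : B⁻¹ * Y * D = D * B * X) : ∃ F : MT φ →* H, ∀ l, F (ev φ l) = evW X Y B D l := by
  obtain ⟨F, hF, hF'⟩ := exists_lift (φ := φ)
    (FreeGroup.lift (![X * Y⁻¹, B, X⁻¹ * D] : Fin 3 → H)) X (by
      intro i
      fin_cases i
      · simp [h0]
        have e1 : X⁻¹ * Y = Y * X⁻¹ := by
          rw [inv_mul_eq_iff_eq_mul, ← mul_assoc, k1]
          group
        have e2 : X * (X * Y⁻¹) * X⁻¹ = X * (X * Y⁻¹) * (X⁻¹ * Y) * Y⁻¹ := by group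
        rw [e2, e1]
        group
      · simp [h1]
        rw [eq_mul_inv_iff_mul_eq, mul_assoc, mul_assoc, k2]
        group
      · simp [h2]
        have e1 : B * X⁻¹ = Y⁻¹ * B := by
          rw [mul_inv_eq_iff_eq_mul, mul_assoc, k2]
          group
        have e2 : B * (X⁻¹ * D) * B * X = D := by
          have : B * (X⁻¹ * D) * B * X = (B * X⁻¹) * (D * B * X) := by group
          rw [this, e1, ← k3]
          group
        rw [eq_mul_inv_iff_mul_eq, e2])
  refine ⟨F, fun l => ?_⟩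
  unfold ev
  rw [map_evW]
  have a1 : F (bx φ) = X := hF'
  have a2 : F (by' φ) = Y := by
    unfold by'
    rw [map_mul, map_inv, hF, hF']
    simp
  have a3 : F (bb φ) = B := by
    unfold bb
    rw [hF]
    simp
  have a4 : F (bd φ) = D := by
    unfold bd
    rw [map_mul, hF, hF']
    simp
  rw [a1, a2, a3, a4]

end grp

/-! ### A finite quotient in which the letters are distinct -/

abbrev T3 := ZMod 3 × ZMod 3 × ZMod 3

def pX : Equiv.Perm T3 where
  toFun v := (v.1 + v.2.1, v.2.1 + 2 * v.2.2, v.2.2)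
  invFun v := (v.1 - v.2.1 + 2 * v.2.2, v.2.1 - 2 * v.2.2, v.2.2)
  left_inv := by decide
  right_inv := by decide

def pY : Equiv.Perm T3 where
  toFun v := (v.1 + v.2.1 - 1, v.2.1 + 2 * v.2.2, v.2.2)
  invFun v := (v.1 + 1 - v.2.1 + 2 * v.2.2, v.2.1 - 2 * v.2.2, v.2.2)
  left_inv := by decide
  right_inv := by decide

def pB : Equiv.Perm T3 where
  toFun v := (v.1, v.2.1 + 1, v.2.2)
  invFun v := (v.1, v.2.1 - 1, v.2.2)
  left_inv := by decide
  right_inv := by decide

def pD : Equiv.Perm T3 where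
  toFun v := (v.1 + v.2.1, v.2.1 + 2 * v.2.2 + 2, v.2.2 + 1)
  invFun v := (v.1 - v.2.1 + 2 * v.2.2, v.2.1 - 2 * (v.2.2 - 1) - 2, v.2.2 - 1)
  left_inv := by decide
  right_inv := by decide

theorem p1 : pX * pY = pY * pX := by decide +kernel
theorem p2 : pB * pX = pY * pB := by decide +kernel
theorem p3 : pB⁻¹ * pY * pD = pD * pB * pX := by decide +kernel
theorem p_inj : ∀ l l' : L, evW pX pY pB pD l = evW pX pY pB pD l' → l = l' := by decide +kernel
theorem p_ne : ∀ l : L, evW pX pY pB pD l ≠ 1 := by decide +kernel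

section grp

variable {φ : MulAut (FreeGroup (Fin 3))} (h0 : φ (FreeGroup.of 0) = FreeGroup.of 0)
  (h1 : φ (FreeGroup.of 1) = FreeGroup.of 0 * FreeGroup.of 1)
  (h2 : φ (FreeGroup.of 2) = FreeGroup.of 1 * FreeGroup.of 2 * FreeGroup.of 1)

theorem gen_top : Subgroup.closure (Set.range (ev φ)) = ⊤ := by
  set K := Subgroup.closure (Set.range (ev φ)) with hK
  have m : ∀ l, ev φ l ∈ K := fun l => Subgroup.subset_closure ⟨l, rfl⟩
  have mx : bx φ ∈ K := by simpa [ev, evW] using m (0, true)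
  have my : by' φ ∈ K := by simpa [ev, evW] using m (1, true)
  have mb : bb φ ∈ K := by simpa [ev, evW] using m (2, true)
  have md : bd φ ∈ K := by simpa [ev, evW] using m (3, true)
  have ma : io φ (FreeGroup.of 0) ∈ K := by
    have : io φ (FreeGroup.of 0) = bx φ * (by' φ)⁻¹ := by
      unfold bx by'
      group
    rw [this]
    exact K.mul_mem mx (K.inv_mem my)
  have mc : io φ (FreeGroup.of 2) ∈ K := by
    have : io φ (FreeGroup.of 2) = (bx φ)⁻¹ * bd φ := by
      unfold bx bd
      group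
    rw [this]
    exact K.mul_mem (K.inv_mem mx) md
  have hF : ∀ w, io φ w ∈ K := by
    intro w
    have hw : w ∈ Subgroup.closure (Set.range (FreeGroup.of : Fin 3 → FreeGroup (Fin 3))) := by
      rw [FreeGroup.closure_range_of]; trivial
    induction hw using Subgroup.closure_induction with
    | mem w hw =>
      obtain ⟨i, rfl⟩ := hw
      fin_cases i
      · exact ma
      · exact mb
      · exact mc
    | one => simp [io, K.one_mem]
    | mul w w' _ _ ih ih' =>
      have : io φ (w * w') = io φ w * io φ w' := by simp [io]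
      rw [this]
      exact K.mul_mem ih ih'
    | inv w _ ih =>
      have : io φ (w⁻¹) = (io φ w)⁻¹ := by simp [io]
      rw [this]
      exact K.inv_mem ih
  rw [eq_top_iff]
  rintro g -
  have hg : g = io φ g.left * tt φ ^ (Multiplicative.toAdd g.right) := by
    rw [← SemidirectProduct.inl_left_mul_inr_right g]
    unfold io tt
    rw [← map_zpow]
    congr 2
    · simp
    · simp [← ofAdd_zsmul]
  rw [hg]
  exact K.mul_mem (hF _) (K.zpow_mem mx _)

/-- The square data of the mapping torus. -/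
def data : SqData L (MT φ) where
  inv := inv
  comp := comp
  ev := ev φ
  inv_inv := inv_inv
  ev_inv := evW_inv _ _ _ _
  ev_inj := by
    obtain ⟨F, hF⟩ := exists_hom h0 h1 h2 pX pY pB pD p1 p2 p3
    intro l l' h
    refine p_inj l l' ?_
    rw [← hF, ← hF, h]
  ev_ne := by
    obtain ⟨F, hF⟩ := exists_hom h0 h1 h2 pX pY pB pD p1 p2 p3
    intro l h
    refine p_ne l ?_
    rw [← hF, h, map_one]
  rel := fun a e b c h => evW_rel _ _ _ _ (q1 h0) (q2 h1) (q3 h1 h2) h
  rot := fun a e b c h => (tbl_ok _ (comp_mem h)).2.1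
  rev := fun a e b c h => (tbl_ok _ (comp_mem h)).2.2.1
  red := fun a e b c h => (tbl_ok _ (comp_mem h)).2.2.2
  cube := fun a b c u v u' v' u'' v'' k1 k2 k3 => cube k1 k2 k3
  no4 := no4
  gen := gen_top
  univ := by
    intro H _ f hf hrel
    have c1 : f (0, true) * f (1, true) = f (1, true) * f (0, true) :=
      hrel _ _ _ _ (by decide +kernel)
    have c2 : f (2, true) * f (0, true) = f (1, true) * f (2, true) :=
      hrel _ _ _ _ (by decide +kernel)
    have c3 : f (2, false) * f (4, true) = f (3, true) * f (2, true) :=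
      hrel _ _ _ _ (by decide +kernel)
    have c4 : f (1, true) * f (3, true) = f (4, true) * f (0, true) :=
      hrel _ _ _ _ (by decide +kernel)
    have c5 : f (0, true) * f (5, true) = f (3, true) * f (1, true) :=
      hrel _ _ _ _ (by decide +kernel)
    have c7 : f (0, true) * f (6, true) = f (4, true) * f (1, true) :=
      hrel _ _ _ _ (by decide +kernel)
    have i2 : f (2, false) = (f (2, true))⁻¹ := hf (2, true)
    have d1 : f (4, true) = f (2, true) * f (3, true) * f (2, true) := by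
      rw [i2, inv_mul_eq_iff_eq_mul] at c3
      rw [c3]; group
    have d2 : f (5, true) = (f (0, true))⁻¹ * f (3, true) * f (1, true) := by
      rw [mul_assoc, ← c5]; group
    have d3 : f (6, true) = (f (0, true))⁻¹ * (f (2, true) * f (3, true) * f (2, true)) *
        f (1, true) := by
      rw [← d1, mul_assoc, ← c7]; group
    obtain ⟨F, hF⟩ := exists_hom h0 h1 h2 (f (0, true)) (f (1, true)) (f (2, true)) (f (3, true))
      c1 c2 (by
        rw [mul_assoc, c4, d1]
        group)
    refine ⟨F, fun l => ?_⟩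
    rw [hF]
    obtain ⟨i, s⟩ := l
    cases s
    · have hi : f (i, false) = (f (i, true))⁻¹ := hf (i, true)
      rw [hi]
      fin_cases i <;> simp [evW, d1, d2, d3]
    · fin_cases i <;> simp [evW, d1, d2, d3]

end grp

end Q20.Cub.FbC
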